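import Pool.Agent.helper93.TV.Spec1

/-!
TV, row DU.
-/

namespace Pool.Agent.helper93.TV

open BigOperators Finset Matrix

theorem DU : DU_stmt := by
  intro hCC hU1 hS1 I V _ _ _ _ D F hF a
  have hC := hCC hU1 hS1 I V D F hF
  have hsup : ∀ κ κ', D.Cm F κ κ' ≠ 0 → D.s1 κ' = D.du (D.s1 κ) := by
    intro κ κ' h
    have h1 := (hF.uf.conn.supp _ _ _ _ h).1
    unfold FD.cp at h1
    obtain ⟨_, _, h3, _⟩ := h1
    rw [D.s1_eta] at h3
    exact h3.symm
  have hconj : ∀ κ κ'', ∑ κ', star (D.Cm F κ κ') * D.Cm F κ' κ'' =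
      if κ = κ'' then D.sc F (D.s1 κ) else 0 := by
    intro κ κ''
    have h := congrArg star (hC κ κ'')
    rw [star_sum] at h
    simp only [star_mul', star_star] at h
    rw [h]
    split_ifs <;> simp
  have hcomm : ∀ κ κ', D.Cm F κ κ' * D.sc F (D.s1 κ') = star (D.sc F (D.s1 κ)) * D.Cm F κ κ' := by
    intro κ κ'
    have h1 : ∑ x, ∑ y, D.Cm F κ x * (star (D.Cm F x y) * D.Cm F y κ') =
        D.Cm F κ κ' * D.sc F (D.s1 κ') := by
      simp_rw [← Finset.mul_sum, hconj]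
      simp
    have h2 : ∑ x, ∑ y, D.Cm F κ x * (star (D.Cm F x y) * D.Cm F y κ') =
        star (D.sc F (D.s1 κ)) * D.Cm F κ κ' := by
      rw [Finset.sum_comm]
      simp_rw [← mul_assoc, ← Finset.sum_mul, hC]
      simp
    rw [← h1, h2]
  have hne : D.sc F a ≠ 0 := hF.rigid a
  have hex : ∃ κ', D.Cm F (D.rho a) κ' ≠ 0 := by
    by_contra hcon
    push Not at hcon
    have h1 := hC (D.rho a) (D.rho a)
    rw [if_pos rfl, D.s1_rho] at h1
    have h2 : star (D.sc F a) = 0 := by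
      rw [← h1]
      exact Finset.sum_eq_zero fun x _ => by rw [hcon x, zero_mul]
    exact hne (star_eq_zero.1 h2)
  obtain ⟨κ', hκ'⟩ := hex
  have h1 := hcomm (D.rho a) κ'
  rw [hsup _ _ hκ', D.s1_rho] at h1
  have h2 : D.sc F (D.du a) = star (D.sc F a) := by
    rw [mul_comm (star _)] at h1
    exact mul_left_cancel₀ hκ' h1
  refine ⟨h2, ?_, ?_⟩
  · unfold FD.dm
    rw [h2, norm_star]
  · unfold FD.dm
    exact inv_pos.2 (norm_pos_iff.2 hne)

end Pool.Agent.helper93.TV
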