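import Pool.Agent.helper93.TV.Spec2

/-!
TV, row SI: the vectors of the three-fold right combs are orthonormal.
-/

namespace Pool.Agent.helper93.TV

open BigOperators Finset Matrix

section SI_sec

variable {I V : Type} [Fintype I] [DecidableEq I] [Fintype V] [DecidableEq V]

theorem SI_iter_zero (D : FD I V) (X : Finset I) (c : V → V → V → V → ℂ) (n n' k : ℕ) :
    D.iter X c n n' (fun _ _ => 0) k = fun _ _ _ => 0 := by
  induction k with
  | zero =>
    funext a p q
    simp [FD.iter]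
  | succ k ih =>
    funext a p q
    simp [FD.iter, FD.step, ih]

theorem SI_Phi_zero (D : FD I V) (X : Finset I) (c : V → V → V → V → ℂ) (m n n' : ℕ)
    (a : I) (p q : List V) : D.Phi X c m n n' (fun _ _ => 0) a p q = 0 := by
  simp [FD.Phi, SI_iter_zero]

theorem SI_Op_adj (D : FD I V) (X : Finset I) (n n' : ℕ) (T : List V → List V → ℂ)
    (h : D.Op X n n' T) : D.Op X n' n (fun p q => star (T q p)) := by
  intro p q hpq
  have h1 : T q p ≠ 0 := fun h0 => hpq (by simp [h0])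
  obtain ⟨a1, a2, a3, a4, a5⟩ := h q p h1
  exact ⟨a2, a1, a4, a3, a5.symm⟩

theorem SI_Op_Tbb (hSL : SL_out) (D : FD I V) (X : Finset I) (c : V → V → V → V → ℂ) (m : ℕ)
    (bp : I → List V) (J : V → List V → ℂ) (hX : D.Ctx X c m bp) (hC : D.Calc X c m)
    (hJ : D.JS X c m bp J) (β δ : V) : D.Op X m (3 * m) (D.Tbb X c m bp J β δ) := by
  intro p w h
  unfold FD.Tbb at h
  split_ifs at h with h1
  · obtain ⟨hp, hw⟩ := h1
    obtain ⟨b1, b2, b3⟩ := hX.base (D.t δ)
    obtain ⟨c1, c2, c3⟩ := hX.base (D.s1 δ)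
    obtain ⟨_, _, h3⟩ := hSL I V D X c m bp J hX hC hJ
    obtain ⟨d1, d2, d3⟩ := h3 β δ _ h
    rw [mem_lists] at c1 d1
    have hww : w = w.take m ++ w.drop m := (List.take_append_drop m w).symm
    refine ⟨by rw [hp]; exact b1, ?_, by rw [hp]; exact b2, ?_, ?_⟩
    · rw [mem_lists, hww, List.length_append, hw, c1, d1]
      omega
    · rw [hww, ok_append, hw, c3]
      exact ⟨c2, d2⟩
    · rw [hww, en_append, hw, c3, d3, hp, b3]
  · exact absurd rfl h

theorem SI_comp (hSR : SR_out) (D : FD I V) (X : Finset I) (c : V → V → V → V → ℂ) (m : ℕ)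
    (bp : I → List V) (J : V → List V → ℂ) (hX : D.Ctx X c m bp) (hC : D.Calc X c m)
    (hJ : D.JS X c m bp J) (β δ β' δ' : V) (h1 : D.s1 β = D.s1 β') (h2 : D.s2 β = D.s2 β')
    (h3 : D.s1 δ = D.s1 δ') (h4 : D.t β = D.s2 δ) (h5 : D.t β' = D.s2 δ') (p q : List V) :
    ∑ w ∈ lists V (3 * m), D.Tbb X c m bp J β δ p w * star (D.Tbb X c m bp J β' δ' q w) =
      if β = β' ∧ δ = δ' then mu (bp (D.t δ)) (bp (D.t δ)) p q else 0 := by
  have hR := (hSR I V D X c m bp J hX hC hJ).2 β δ β' δ' h1 h2 h3 h4 h5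
  obtain ⟨c1, _, _⟩ := hX.base (D.s1 δ)
  have hc1 := mem_lists.1 c1
  rw [show 3 * m = m + 2 * m by ring, sum_lists_add]
  have e1 : ∀ r ∈ lists V m, ∑ s ∈ lists V (2 * m), D.Tbb X c m bp J β δ p (r ++ s) *
      star (D.Tbb X c m bp J β' δ' q (r ++ s)) =
      if r = bp (D.s1 δ) then (if p = bp (D.t δ) ∧ q = bp (D.t δ') then
        (if β = β' ∧ δ = δ' then (1 : ℂ) else 0) else 0) else 0 := by
    intro r hr
    have hr' := mem_lists.1 hr
    have t1 : ∀ s : List V, (r ++ s).take m = r := fun s => by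
      rw [← hr', List.take_left]
    have t2 : ∀ s : List V, (r ++ s).drop m = s := fun s => by
      rw [← hr', List.drop_left]
    unfold FD.Tbb
    simp only [t1, t2]
    by_cases hr1 : r = bp (D.s1 δ)
    · rw [if_pos hr1]
      by_cases hp : p = bp (D.t δ)
      · by_cases hq : q = bp (D.t δ')
        · rw [if_pos ⟨hp, hq⟩, ← hR]
          refine Finset.sum_congr rfl fun s _ => ?_
          rw [if_pos ⟨hp, hr1⟩, if_pos ⟨hq, by rw [← h3]; exact hr1⟩]
        · rw [if_neg (fun h => hq h.2)]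
          refine Finset.sum_eq_zero fun s _ => ?_
          rw [if_neg (fun h : q = bp (D.t δ') ∧ r = bp (D.s1 δ') => hq h.1)]
          simp
      · rw [if_neg (fun h => hp h.1)]
        refine Finset.sum_eq_zero fun s _ => ?_
        rw [if_neg (fun h : p = bp (D.t δ) ∧ r = bp (D.s1 δ) => hp h.1)]
        simp
    · rw [if_neg hr1]
      refine Finset.sum_eq_zero fun s _ => ?_
      rw [if_neg (fun h : p = bp (D.t δ) ∧ r = bp (D.s1 δ) => hr1 h.2)]
      simp
  rw [Finset.sum_congr rfl e1, Finset.sum_ite_eq' (lists V m) (bp (D.s1 δ)), if_pos c1]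
  by_cases hb : β = β' ∧ δ = δ'
  · rw [if_pos hb, if_pos hb, hb.2]
    rfl
  · rw [if_neg hb, if_neg hb]
    simp

theorem SI_main (hSR : SR_out) (hSL : SL_out) (D : FD I V) (X : Finset I)
    (c : V → V → V → V → ℂ) (m : ℕ)
    (bp : I → List V) (J : V → List V → ℂ) (hX : D.Ctx X c m bp) (hC : D.Calc X c m)
    (hJ : D.JS X c m bp J) (β δ β' δ' : V) (h1 : D.s1 β = D.s1 β') (h2 : D.s2 β = D.s2 β')
    (h3 : D.s1 δ = D.s1 δ') (h4 : D.t β = D.s2 δ) (h5 : D.t β' = D.s2 δ') (a : I)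
    (p q : List V) :
    ∑ w ∈ lists V (3 * m), D.Phi X c m m (3 * m) (D.Tbb X c m bp J β δ) a p w *
      star (D.Phi X c m m (3 * m) (D.Tbb X c m bp J β' δ') a q w) =
      if β = β' ∧ δ = δ' then D.Phi X c m m m (mu (bp (D.t δ)) (bp (D.t δ))) a p q else 0 := by
  have hm : m ≤ 3 * m := by omega
  have o1 := SI_Op_Tbb hSL D X c m bp J hX hC hJ β δ
  have o2 := SI_Op_Tbb hSL D X c m bp J hX hC hJ β' δ'
  have ad := hC.adj m hm (3 * m) le_rfl _ o2
  have ml := hC.mul m hm (3 * m) le_rfl m hm _ _ o1 (SI_Op_adj D X _ _ _ o2)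
  have e1 : ∑ w ∈ lists V (3 * m), D.Phi X c m m (3 * m) (D.Tbb X c m bp J β δ) a p w *
      star (D.Phi X c m m (3 * m) (D.Tbb X c m bp J β' δ') a q w) =
      D.Phi X c m m m (fun p q => ∑ w ∈ lists V (3 * m), D.Tbb X c m bp J β δ p w *
        star (D.Tbb X c m bp J β' δ' q w)) a p q := by
    have e2 := congrFun (congrFun (congrFun ml a) p) q
    rw [e2]
    refine Finset.sum_congr rfl fun w _ => ?_
    rw [congrFun (congrFun (congrFun ad a) w) q]
  rw [e1]
  have e3 : (fun p q => ∑ w ∈ lists V (3 * m), D.Tbb X c m bp J β δ p w *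
        star (D.Tbb X c m bp J β' δ' q w)) =
      fun p q => if β = β' ∧ δ = δ' then mu (bp (D.t δ)) (bp (D.t δ)) p q else 0 := by
    funext p q
    exact SI_comp hSR D X c m bp J hX hC hJ β δ β' δ' h1 h2 h3 h4 h5 p q
  rw [e3]
  by_cases hb : β = β' ∧ δ = δ'
  · simp only [if_pos hb]
  · simp only [if_neg hb]
    exact SI_Phi_zero D X c m m m a p q

end SI_sec

theorem SI : SI_stmt := by
  intro hSR hSL I V _ _ _ _ D X c m bp J hX hC hJ β δ ζ β' δ' ζ' h1 h2 h3 h4 h5 h6 h7 h8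
  have e1 : ∑ w ∈ lists V (3 * m), D.RR X c m bp J β δ ζ w * star (D.RR X c m bp J β' δ' ζ' w) =
      ∑ p ∈ lists V m, ∑ q ∈ lists V m, J ζ p * star (J ζ' q) *
        (if β = β' ∧ δ = δ' then
          D.Phi X c m m m (mu (bp (D.t δ)) (bp (D.t δ))) (D.s1 ζ) p q else 0) := by
    unfold FD.RR
    simp only [star_sum, star_mul', Finset.sum_mul_sum, ← h4]
    rw [Finset.sum_comm]
    refine Finset.sum_congr rfl fun p _ => ?_
    rw [Finset.sum_comm]
    refine Finset.sum_congr rfl fun q _ => ?_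
    rw [← SI_main hSR hSL D X c m bp J hX hC hJ β δ β' δ' h1 h2 h3 h5 h6 (D.s1 ζ) p q,
      Finset.mul_sum]
    refine Finset.sum_congr rfl fun w _ => ?_
    ring
  rw [e1]
  by_cases hb : β = β' ∧ δ = δ'
  · simp only [if_pos hb]
    have e2 : ∑ p ∈ lists V m, ∑ q ∈ lists V m, J ζ p * star (J ζ' q) *
        D.Phi X c m m m (mu (bp (D.t δ)) (bp (D.t δ))) (D.s1 ζ) p q =
        ∑ x ∈ univ.filter (fun x => D.s1 x = D.s1 ζ ∧ D.s2 x = D.t δ),
          (∑ p ∈ lists V m, J ζ p * star (J x p)) * (∑ q ∈ lists V m, J x q * star (J ζ' q)) := by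
      simp only [← hJ.comp (D.s1 ζ) (D.t δ), Finset.mul_sum, Finset.sum_mul]
      rw [Finset.sum_comm]
      have : ∀ q ∈ lists V m, ∑ p ∈ lists V m, ∑ i ∈ univ.filter
          (fun x => D.s1 x = D.s1 ζ ∧ D.s2 x = D.t δ),
          J ζ p * star (J ζ' q) * (star (J i p) * J i q) =
          ∑ i ∈ univ.filter (fun x => D.s1 x = D.s1 ζ ∧ D.s2 x = D.t δ), ∑ p ∈ lists V m,
          J ζ p * star (J i p) * (J i q * star (J ζ' q)) := by
        intro q _
        rw [Finset.sum_comm]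
        refine Finset.sum_congr rfl fun i _ => Finset.sum_congr rfl fun p _ => ?_
        ring
      rw [Finset.sum_congr rfl this, Finset.sum_comm]
    rw [e2]
    have e3 : ∀ x ∈ univ.filter (fun x => D.s1 x = D.s1 ζ ∧ D.s2 x = D.t δ),
        (∑ p ∈ lists V m, J ζ p * star (J x p)) * (∑ q ∈ lists V m, J x q * star (J ζ' q)) =
        if x = ζ then (if ζ = ζ' then (1 : ℂ) else 0) else 0 := by
      intro x hx
      rw [Finset.mem_filter] at hx
      obtain ⟨_, x1, x2⟩ := hx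
      rw [hJ.orth ζ x x1.symm (by rw [x2, h7]),
        hJ.orth x ζ' (by rw [x1, h4]) (by rw [x2, hb.2, h8])]
      by_cases hz : x = ζ
      · subst hz
        simp
      · rw [if_neg (fun h => hz h.symm), if_neg hz, zero_mul]
    rw [Finset.sum_congr rfl e3, Finset.sum_ite_eq' _ ζ]
    have hmem : ζ ∈ univ.filter (fun x => D.s1 x = D.s1 ζ ∧ D.s2 x = D.t δ) := by
      rw [Finset.mem_filter]
      exact ⟨Finset.mem_univ _, rfl, h7.symm⟩
    rw [if_pos hmem]
    by_cases hz : ζ = ζ'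
    · rw [if_pos hz, if_pos ⟨hb.1, hb.2, hz⟩]
    · rw [if_neg hz, if_neg (fun h => hz h.2.2)]
  · simp only [if_neg hb]
    rw [if_neg (fun h => hb ⟨h.1, h.2.1⟩)]
    simp

end Pool.Agent.helper93.TV
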